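import Mathlib
import Pool.Agent.Q8.HK.Corr

/-!
# The multiplicative Orlov conjecture for homological motives

Derived equivalent projective hyper-Kähler varieties `X`, `Y` have isomorphic rational
cohomology algebras, by an isomorphism of Hodge structures which, together with its inverse, is
given by algebraic cycles.

The input consists of known theorems, collected in the structures `Coh` (the cohomology of a
projective hyper-Kähler variety: Beauville, Bogomolov, Fujiki, Verbitsky, Looijenga–Lunts,
Hodge index theorem), `DerEq` (the action of a derived equivalence on cohomology: Mukai, Orlov,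
Căldăraru, Calaque–Rossi–Van den Bergh) and `AlgCorr` (composition of correspondences,
Lefschetz (1,1)-theorem).
-/

set_option autoImplicit false

open Pool.Agent.Q8.HK

namespace Pool.Agent.Results.MP_b12c7d_ag.MultiplicativeOrlov

theorem result {n : ℕ} {A V B U : Type}
    [Ring A] [Algebra ℂ A] [AddCommGroup V] [Module ℂ V]
    [Ring B] [Algebra ℂ B] [AddCommGroup U] [Module ℂ U]
    -- the cohomology of `X` and of `Y`, the algebraic correspondences
    (X : Coh n A V) (Y : Coh n B U) (C : AlgCorr X Y)
    -- the derived equivalence, which is given by algebraic classes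
    (D : DerEq X Y) (h : D.Φ.toLinearMap ∈ C.XY) (h' : D.Φ.symm.toLinearMap ∈ C.YX) :
    -- a ring isomorphism, given together with its inverse by algebraic cycles
    ∃ G : A ≃ₐ[ℂ] B, G.toLinearMap ∈ C.XY ∧ G.symm.toLinearMap ∈ C.YX ∧
      -- which preserves degrees
      (∀ k x, x ∈ grade X.b X.d k ↔ G x ∈ grade Y.b Y.d k) ∧
      -- maps rational classes to rational classes
      (∀ x, IsRat X.b x ↔ IsRat Y.b (G x)) ∧
      -- is a morphism of Hodge structures
      (∀ x, G (X.eta x) = Y.eta (G x)) ∧
      -- and multiplies the integral by a rational square, if `Φ` is a Mukai isometry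
      ((∀ x y, Y.mukai (D.Φ x) (D.Φ y) = X.mukai x y) →
        ∃ r : ℚ, r ≠ 0 ∧ ∀ x, Y.int (G x) = (r : ℂ) ^ 2 * X.int x) :=
  D.algebraic C h h'

end Pool.Agent.Results.MP_b12c7d_ag.MultiplicativeOrlov
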